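import Pool.Agent.Lib.FW.SpecR2

/-!
# FW, part R2: a class character is a homomorphism on the class group
-/

open scoped Pointwise nonZeroDivisors

noncomputable section

namespace Pool.Agent.FW

open Pool.Agent.MuZ NumberField IsDedekindDomain Filter Topology

private theorem hom_supp (p : ℕ) {K : Type} [Field K] [NumberField K]
    (a : HeightOneSpectrum (𝓞 K) → ZMod p) (I : FractionalIdeal (𝓞 K)⁰ K) :
    (Function.support fun v : HeightOneSpectrum (𝓞 K) =>
      (FractionalIdeal.count K v I : ZMod p) * a v).Finite := by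
  have h := FractionalIdeal.finite_factors (K := K) I
  rw [Filter.eventually_cofinite] at h
  refine h.subset fun v hv => ?_
  intro h0
  apply hv
  simp [h0]

/-- The homomorphism on fractional ideals. -/
private def homF (p : ℕ) {K : Type} [Field K] [NumberField K]
    (a : HeightOneSpectrum (𝓞 K) → ZMod p) :
    (FractionalIdeal (𝓞 K)⁰ K)ˣ →* Multiplicative (ZMod p) :=
  MonoidHom.mk' (fun I => Multiplicative.ofAdd (∑ᶠ v : HeightOneSpectrum (𝓞 K),
    (FractionalIdeal.count K v (I : FractionalIdeal (𝓞 K)⁰ K) : ZMod p) * a v)) (by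
    intro I J
    rw [← ofAdd_add, ← finsum_add_distrib (hom_supp p a _) (hom_supp p a _)]
    congr 1
    refine finsum_congr fun v => ?_
    rw [Units.val_mul, FractionalIdeal.count_mul K v I.ne_zero J.ne_zero]
    push_cast
    ring)

theorem tHom : S_Hom := by
  intro p K _ _ a ha
  have hker : (toPrincipalIdeal (𝓞 K) K).range ≤ (homF p a).ker := by
    rintro _ ⟨x, rfl⟩
    rw [MonoidHom.mem_ker]
    have h1 := ha (x : K) x.ne_zero
    have h2 : homF p a (toPrincipalIdeal (𝓞 K) K x) = Multiplicative.ofAdd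
        (∑ᶠ v : HeightOneSpectrum (𝓞 K), (vl K v (x : K) : ZMod p) * a v) := by
      change Multiplicative.ofAdd (∑ᶠ v : HeightOneSpectrum (𝓞 K),
        (FractionalIdeal.count K v ((toPrincipalIdeal (𝓞 K) K x :
          (FractionalIdeal (𝓞 K)⁰ K)ˣ) : FractionalIdeal (𝓞 K)⁰ K) : ZMod p) * a v) = _
      rw [coe_toPrincipalIdeal]
      rfl
    rw [h2, h1]
    rfl
  refine ⟨(QuotientGroup.lift (toPrincipalIdeal (𝓞 K) K).range (homF p a) hker).comp
    (ClassGroup.equiv K).toMonoidHom, fun v => ?_⟩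
  change (QuotientGroup.lift (toPrincipalIdeal (𝓞 K) K).range (homF p a) hker)
    (ClassGroup.equiv K (ClassGroup.mk0 (MP7ed9c3.Tw.D6a.pr v))) = _
  rw [ClassGroup.equiv_mk0, QuotientGroup.mk'_apply, QuotientGroup.lift_mk]
  change Multiplicative.ofAdd (∑ᶠ w : HeightOneSpectrum (𝓞 K),
    (FractionalIdeal.count K w ((FractionalIdeal.mk0 K (MP7ed9c3.Tw.D6a.pr v) :
      (FractionalIdeal (𝓞 K)⁰ K)ˣ) : FractionalIdeal (𝓞 K)⁰ K) : ZMod p) * a w) = _
  congr 1
  rw [FractionalIdeal.coe_mk0]
  change ∑ᶠ w : HeightOneSpectrum (𝓞 K),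
    (FractionalIdeal.count K w (v.asIdeal : FractionalIdeal (𝓞 K)⁰ K) : ZMod p) * a w = a v
  rw [finsum_eq_single _ v]
  · rw [FractionalIdeal.count_self]
    simp
  · intro w hw
    rw [FractionalIdeal.count_maximal_coprime K w (Ne.symm hw)]
    simp

end Pool.Agent.FW
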