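import Pool.Agent.Lib.FW.SpecR2

/-!
# FW, stage 2, part R2, module LB: the L-series of a nontrivial class group character is bounded near 1
-/

open scoped Pointwise nonZeroDivisors

noncomputable section

namespace Pool.Agent.FW

open Pool.Agent.MuZ NumberField IsDedekindDomain Filter Topology

private theorem LB_lim (f : ℝ → ℝ) (c C : ℝ)
    (h : ∀ x : ℝ, 0 < x → x ≤ 1 → |f x - c / x| ≤ C) :
    Tendsto (fun x : ℝ => x * f x) (𝓝[>] 0) (𝓝 c) := by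
  have h1 : Tendsto (fun x : ℝ => C * x) (𝓝[>] 0) (𝓝 0) := by
    have h2 : Tendsto (fun x : ℝ => C * x) (𝓝 0) (𝓝 (C * 0)) :=
      (continuous_const.mul continuous_id).tendsto 0
    rw [mul_zero] at h2
    exact h2.mono_left nhdsWithin_le_nhds
  rw [tendsto_iff_norm_sub_tendsto_zero]
  refine squeeze_zero' (Eventually.of_forall fun x => norm_nonneg _) ?_ h1
  filter_upwards [Ioc_mem_nhdsGT (zero_lt_one' ℝ)] with x hx
  have h3 : x * f x - c = x * (f x - c / x) := by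
    have := hx.1.ne'
    field_simp
  rw [h3, norm_mul, Real.norm_eq_abs, Real.norm_eq_abs, abs_of_pos hx.1, mul_comm]
  exact mul_le_mul_of_nonneg_right (h x hx.1 hx.2) hx.1.le

private theorem LB_const (hZA : S_ZA) (hZB : S_ZB) (K : Type) [Field K] [NumberField K] :
    ∃ κ : ℝ, ∀ Cl : ClassGroup (𝓞 K), ∃ C : ℝ, ∀ x : ℝ, 0 < x → x ≤ 1 →
      |ZC K Cl (1 + x) - κ / x| ≤ C := by
  obtain ⟨κ, hκ⟩ := hZB K
  refine ⟨κ, fun Cl => ?_⟩
  obtain ⟨c, C, hC⟩ := hZA K Cl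
  have h1 : c = κ := tendsto_nhds_unique (LB_lim _ c C hC) (hκ Cl)
  rw [← h1]
  exact ⟨C, hC⟩

private theorem LB_norm {K : Type} [Field K] [NumberField K] (χ : ClassGroup (𝓞 K) →* ℂˣ)
    (Cl : ClassGroup (𝓞 K)) : ‖((χ Cl : ℂˣ) : ℂ)‖ = 1 := by
  apply Complex.norm_eq_one_of_pow_eq_one (n := Fintype.card (ClassGroup (𝓞 K)))
  · rw [← Units.val_pow_eq_pow_val, ← map_pow, pow_card_eq_one, map_one, Units.val_one]
  · exact Fintype.card_ne_zero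

private theorem LB_sum {K : Type} [Field K] [NumberField K] (χ : ClassGroup (𝓞 K) →* ℂˣ)
    (hχ : χ ≠ 1) : ∑ Cl : ClassGroup (𝓞 K), ((χ Cl : ℂˣ) : ℂ) = 0 := by
  have h1 : (Units.coeHom ℂ).comp χ ≠ 1 := by
    intro h
    apply hχ
    ext Cl
    exact DFunLike.congr_fun h Cl
  exact sum_hom_units_eq_zero ((Units.coeHom ℂ).comp χ) h1

private theorem LB_dec {K : Type} [Field K] [NumberField K] (χ : ClassGroup (𝓞 K) →* ℂˣ)
    (s : ℝ) (hs : 1 < s) :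
    ∑' I : (Ideal (𝓞 K))⁰, ((χ (ClassGroup.mk0 I) : ℂˣ) : ℂ) *
      (((Ideal.absNorm (I : Ideal (𝓞 K)) : ℝ) ^ (-s) : ℝ) : ℂ) =
    ∑ Cl : ClassGroup (𝓞 K), ((χ Cl : ℂˣ) : ℂ) * ((ZC K Cl s : ℝ) : ℂ) := by
  have hsum : Summable fun I : (Ideal (𝓞 K))⁰ => ((χ (ClassGroup.mk0 I) : ℂˣ) : ℂ) *
      (((Ideal.absNorm (I : Ideal (𝓞 K)) : ℝ) ^ (-s) : ℝ) : ℂ) := by
    apply Summable.of_norm
    refine (MP7ed9c3.Tw.D6a.summable_nm (K := K) hs).congr fun I => ?_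
    rw [norm_mul, LB_norm, one_mul, Complex.norm_real, Real.norm_eq_abs, abs_of_nonneg]
    · rfl
    · exact Real.rpow_nonneg (Nat.cast_nonneg _) _
  have h0 := (Equiv.sigmaFiberEquiv (ClassGroup.mk0 (R := 𝓞 K))).summable_iff.2 hsum
  rw [← (Equiv.sigmaFiberEquiv (ClassGroup.mk0 (R := 𝓞 K))).tsum_eq]
  have h1 := h0.tsum_sigma' (fun Cl => h0.comp_injective sigma_mk_injective)
  simp only [Function.comp_def] at h1
  rw [h1, tsum_fintype]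
  refine Finset.sum_congr rfl fun Cl _ => ?_
  unfold ZC
  rw [Complex.ofReal_tsum, ← tsum_mul_left]
  refine tsum_congr fun y => ?_
  have h2 : (Equiv.sigmaFiberEquiv (ClassGroup.mk0 (R := 𝓞 K))) ⟨Cl, y⟩ = y.1 := rfl
  rw [h2, y.2]

theorem tLB (hZA : S_ZA) (hZB : S_ZB) : S_LB := by
  intro K _ _ χ hχ
  obtain ⟨κ, hκ⟩ := LB_const hZA hZB K
  choose C hC using hκ
  refine ⟨∑ Cl : ClassGroup (𝓞 K), C Cl, fun x h0 h1 => ?_⟩
  rw [LB_dec χ (1 + x) (by linarith)]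
  have h2 : ∑ Cl : ClassGroup (𝓞 K), ((χ Cl : ℂˣ) : ℂ) * ((ZC K Cl (1 + x) : ℝ) : ℂ) =
      ∑ Cl : ClassGroup (𝓞 K), ((χ Cl : ℂˣ) : ℂ) * ((ZC K Cl (1 + x) - κ / x : ℝ) : ℂ) := by
    have h3 : ∑ Cl : ClassGroup (𝓞 K), ((χ Cl : ℂˣ) : ℂ) * ((κ / x : ℝ) : ℂ) = 0 := by
      rw [← Finset.sum_mul, LB_sum χ hχ, zero_mul]
    rw [← sub_zero (∑ Cl : ClassGroup (𝓞 K), ((χ Cl : ℂˣ) : ℂ) * ((ZC K Cl (1 + x) : ℝ) : ℂ)),
      ← h3, ← Finset.sum_sub_distrib]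
    refine Finset.sum_congr rfl fun Cl _ => ?_
    rw [Complex.ofReal_sub, mul_sub]
  rw [h2]
  refine (norm_sum_le _ _).trans (Finset.sum_le_sum fun Cl _ => ?_)
  rw [norm_mul, LB_norm, one_mul, Complex.norm_real, Real.norm_eq_abs]
  exact hC Cl x h0 h1

end Pool.Agent.FW
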