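import Pool.Agent.Lib.FW.SpecR2

/-!
# FW, part R2: prime sums of nontrivial characters of the class group are bounded above
-/

open scoped Pointwise nonZeroDivisors

noncomputable section

namespace Pool.Agent.FW

open Pool.Agent.MuZ NumberField IsDedekindDomain Filter Topology

section

variable {K : Type} [Field K] [NumberField K]

private theorem pb_norm (χ : ClassGroup (𝓞 K) →* ℂˣ) (c : ClassGroup (𝓞 K)) :
    ‖((χ c : ℂˣ) : ℂ)‖ = 1 := by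
  have h : ((χ c : ℂˣ) : ℂ) ^ (Fintype.card (ClassGroup (𝓞 K))) = 1 := by
    rw [← Units.val_pow_eq_pow_val, ← map_pow, pow_card_eq_one, map_one, Units.val_one]
  exact Complex.norm_eq_one_of_pow_eq_one h Fintype.card_ne_zero

private def pbz (χ : ClassGroup (𝓞 K) →* ℂˣ) (x : ℝ) (I : (Ideal (𝓞 K))⁰) : ℂ :=
  ((χ (ClassGroup.mk0 I) : ℂˣ) : ℂ) *
      (((Ideal.absNorm (I : Ideal (𝓞 K)) : ℝ) ^ (-(1 + x)) : ℝ) : ℂ)

private theorem pbz_norm (χ : ClassGroup (𝓞 K) →* ℂˣ) (x : ℝ) (I : (Ideal (𝓞 K))⁰) :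
    ‖pbz χ x I‖ = (MP7ed9c3.Tw.D6a.nm I : ℝ) ^ (-(1 + x)) := by
  unfold pbz
  rw [norm_mul, pb_norm, one_mul, Complex.norm_real, Real.norm_eq_abs,
    abs_of_nonneg (Real.rpow_nonneg (Nat.cast_nonneg _) _)]
  rfl

private theorem pbz_norm_pr (χ : ClassGroup (𝓞 K) →* ℂˣ) (x : ℝ) (v : HeightOneSpectrum (𝓞 K)) :
    ‖pbz χ x (MP7ed9c3.Tw.D6a.pr v)‖ = (ZD.nm v : ℝ) ^ (-(1 + x)) :=
  pbz_norm χ x _

private theorem pbz_one (χ : ClassGroup (𝓞 K) →* ℂˣ) (x : ℝ) : pbz χ x 1 = 1 := by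
  unfold pbz
  rw [map_one, map_one, Submonoid.coe_one, map_one, Nat.cast_one, Real.one_rpow, Units.val_one,
    Complex.ofReal_one, one_mul]

private theorem pbz_mul (χ : ClassGroup (𝓞 K) →* ℂˣ) (x : ℝ) (I J : (Ideal (𝓞 K))⁰) :
    pbz χ x (I * J) = pbz χ x I * pbz χ x J := by
  unfold pbz
  rw [map_mul, map_mul, Submonoid.coe_mul, map_mul, Nat.cast_mul,
    Real.mul_rpow (Nat.cast_nonneg _) (Nat.cast_nonneg _), Units.val_mul, Complex.ofReal_mul]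
  ring

private theorem pbz_le_inv (χ : ClassGroup (𝓞 K) →* ℂˣ) (x : ℝ) (hx : 0 < x)
    (v : HeightOneSpectrum (𝓞 K)) :
    ‖pbz χ x (MP7ed9c3.Tw.D6a.pr v)‖ ≤ (ZD.nm v : ℝ)⁻¹ := by
  rw [pbz_norm_pr]
  exact ZD.term_le_inv v hx.le

private theorem pbz_le_half (χ : ClassGroup (𝓞 K) →* ℂˣ) (x : ℝ) (hx : 0 < x)
    (v : HeightOneSpectrum (𝓞 K)) :
    ‖pbz χ x (MP7ed9c3.Tw.D6a.pr v)‖ ≤ 1 / 2 := by
  refine (pbz_le_inv χ x hx v).trans ?_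
  rw [one_div]
  exact inv_anti₀ (by norm_num) (by exact_mod_cast ZD.two_le_nm v)

private theorem pbz_sq (χ : ClassGroup (𝓞 K) →* ℂˣ) (x : ℝ) (hx : 0 < x)
    (v : HeightOneSpectrum (𝓞 K)) :
    ‖pbz χ x (MP7ed9c3.Tw.D6a.pr v)‖ ^ 2 ≤ (ZD.nm v : ℝ) ^ (-2 : ℝ) := by
  have hp : (0 : ℝ) < ZD.nm v := by exact_mod_cast ZD.nm_pos v
  calc ‖pbz χ x (MP7ed9c3.Tw.D6a.pr v)‖ ^ 2 ≤ ((ZD.nm v : ℝ)⁻¹) ^ 2 :=
        pow_le_pow_left₀ (norm_nonneg _) (pbz_le_inv χ x hx v) 2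
    _ = (ZD.nm v : ℝ) ^ (-2 : ℝ) := by
      rw [← Real.rpow_neg_one, ← Real.rpow_natCast, ← Real.rpow_mul hp.le]
      norm_num

private theorem pb_log_bound (χ : ClassGroup (𝓞 K) →* ℂˣ) (x : ℝ) (hx : 0 < x)
    (v : HeightOneSpectrum (𝓞 K)) :
    ‖-Complex.log (1 - pbz χ x (MP7ed9c3.Tw.D6a.pr v)) - pbz χ x (MP7ed9c3.Tw.D6a.pr v)‖ ≤
      (ZD.nm v : ℝ) ^ (-2 : ℝ) := by
  have h1 := pbz_le_half χ x hx v
  have hsq := pbz_sq χ x hx v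
  set z := pbz χ x (MP7ed9c3.Tw.D6a.pr v) with hz
  have h2 : ‖-z‖ < 1 := by
    rw [norm_neg]
    linarith
  have h3 := Complex.norm_log_one_add_sub_self_le h2
  rw [norm_neg] at h3
  have e : -Complex.log (1 - z) - z = -(Complex.log (1 + -z) - -z) := by
    rw [← sub_eq_add_neg]
    ring
  rw [e, norm_neg]
  refine (h3.trans ?_).trans hsq
  have h4 : (1 - ‖z‖)⁻¹ ≤ 2 := by
    rw [inv_le_comm₀ (by linarith) (by norm_num)]
    linarith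
  have h5 : 0 ≤ ‖z‖ ^ 2 := by positivity
  nlinarith

private theorem pbz_summable (χ : ClassGroup (𝓞 K) →* ℂˣ) (x : ℝ) (hx : 0 < x) :
    Summable fun I : (Ideal (𝓞 K))⁰ => ‖pbz χ x I‖ := by
  simp only [pbz_norm]
  exact MP7ed9c3.Tw.D6a.summable_nm (by linarith)

private theorem pbz_summable_pr (χ : ClassGroup (𝓞 K) →* ℂˣ) (x : ℝ) (hx : 0 < x) :
    Summable fun v : HeightOneSpectrum (𝓞 K) => pbz χ x (MP7ed9c3.Tw.D6a.pr v) :=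
  Summable.of_norm ((pbz_summable χ x hx).comp_injective MP7ed9c3.Tw.D6a.pr_inj)

end

/-- **Prime sums of nontrivial characters are bounded above.** -/
theorem tPB (hLB : S_LB) : S_PB := by
  intro K _ _ χ hχ
  obtain ⟨C, hC⟩ := hLB K χ hχ
  refine ⟨Real.log C + ∑' v : HeightOneSpectrum (𝓞 K), (ZD.nm v : ℝ) ^ (-2 : ℝ), ?_⟩
  intro x hx hx1
  have hT : ‖∑' I : (Ideal (𝓞 K))⁰, pbz χ x I‖ ≤ C := hC x hx hx1
  have hlt : ∀ v : HeightOneSpectrum (𝓞 K), ‖pbz χ x (MP7ed9c3.Tw.D6a.pr v)‖ < 1 := fun v =>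
    lt_of_le_of_lt (pbz_le_half χ x hx v) (by norm_num)
  have he := MP7ed9c3.Tw.D6a.euler (g := pbz χ x) (pbz_summable χ x hx) (pbz_one χ x)
    (pbz_mul χ x) hlt
  have hs := pbz_summable_pr χ x hx
  have hl : Summable fun v : HeightOneSpectrum (𝓞 K) =>
      -Complex.log (1 - pbz χ x (MP7ed9c3.Tw.D6a.pr v)) := hs.clog_one_sub.neg
  have h1 : Real.log ‖∑' I : (Ideal (𝓞 K))⁰, pbz χ x I‖ =
      (∑' v : HeightOneSpectrum (𝓞 K), -Complex.log (1 - pbz χ x (MP7ed9c3.Tw.D6a.pr v))).re := by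
    rw [he, Complex.norm_exp, Real.log_exp]
  have hpos : 0 < ‖∑' I : (Ideal (𝓞 K))⁰, pbz χ x I‖ := by
    rw [he]
    exact norm_pos_iff.2 (Complex.exp_ne_zero _)
  have h2 : Real.log ‖∑' I : (Ideal (𝓞 K))⁰, pbz χ x I‖ ≤ Real.log C :=
    Real.log_le_log hpos hT
  have h3 : ∑' v : HeightOneSpectrum (𝓞 K),
      ((χ (ClassGroup.mk0 (MP7ed9c3.Tw.D6a.pr v)) : ℂˣ) : ℂ).re * (ZD.nm v : ℝ) ^ (-(1 + x)) =
      (∑' v : HeightOneSpectrum (𝓞 K), pbz χ x (MP7ed9c3.Tw.D6a.pr v)).re := by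
    rw [Complex.re_tsum hs]
    refine tsum_congr fun v => ?_
    unfold pbz
    rw [Complex.re_mul_ofReal]
    rfl
  have h4 : |(∑' v : HeightOneSpectrum (𝓞 K), pbz χ x (MP7ed9c3.Tw.D6a.pr v)).re -
      (∑' v : HeightOneSpectrum (𝓞 K),
        -Complex.log (1 - pbz χ x (MP7ed9c3.Tw.D6a.pr v))).re| ≤
      ∑' v : HeightOneSpectrum (𝓞 K), (ZD.nm v : ℝ) ^ (-2 : ℝ) := by
    rw [← Complex.sub_re, ← Summable.tsum_sub hs hl]
    refine (Complex.abs_re_le_norm _).trans ?_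
    refine tsum_of_norm_bounded (ZD.summable_two (K := K)).hasSum fun v => ?_
    rw [norm_sub_rev]
    exact pb_log_bound χ x hx v
  rw [h3]
  have h5 := (abs_le.1 h4).2
  rw [← h1] at h5
  linarith

end Pool.Agent.FW
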