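import Pool.Agent.Lib.FW.SpecR2
import Pool.Agent.Lib.MP_7ed9c3_nt.Tw.D1
import Pool.Agent.Lib.MP_7ed9c3_nt.Tw.D2
import Pool.Agent.Lib.MP_7ed9c3_nt.Tw.D3
import Pool.Agent.Lib.MP_7ed9c3_nt.Tw.D4
import Pool.Agent.Lib.MP_7ed9c3_nt.Tw.D5a
import Pool.Agent.Lib.MP_7ed9c3_nt.Tw.D5b
import Pool.Agent.Lib.MP_7ed9c3_nt.Tw.D6a
import Pool.Agent.Lib.MP_7ed9c3_nt.Tw.D6b

/-!
# The partial zeta functions near 1
-/

open scoped Pointwise nonZeroDivisors ContDiff

noncomputable section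

namespace Pool.Agent.FW

open Pool.Agent.MuZ NumberField IsDedekindDomain Filter Topology
open MP7ed9c3.Tw

theorem tZA : S_ZA := by
  intro K _ _ Cl
  let φ : ContDiffBump (0 : ℝ) := ⟨1 / 2, 1, by norm_num, by norm_num⟩
  have hcd : ContDiff ℝ ∞ φ := φ.contDiff
  have hg : Continuous φ := φ.continuous
  have hg0 : ∀ y, 0 ≤ φ y := fun y => φ.nonneg
  have hδ0 : (0 : ℝ) < 1 := one_pos
  have hδ : ∀ y, (1 : ℝ) ≤ |y| → φ y = 0 := by
    intro y hy
    refine φ.zero_of_le_dist ?_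
    rw [Real.dist_eq, sub_zero]
    exact hy
  have hgp : ∀ y, |y| < 1 → 0 < φ y := by
    intro y hy
    refine φ.pos_of_mem_ball ?_
    rw [Metric.mem_ball, Real.dist_eq, sub_zero]
    exact hy
  obtain ⟨c, C, hC⟩ := D5b.one_class idealSum (coneSum latticeSum famSmooth unfold) K φ hcd
    φ.hasCompactSupport 0 Cl
  obtain ⟨hs0, -, -⟩ := zetaSum K
  set N : {I : (Ideal (𝓞 K))⁰ // ClassGroup.mk0 I = Cl} → ℝ :=
    fun I => (Ideal.absNorm (I.1 : Ideal (𝓞 K)) : ℝ) with hN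
  have h1 : ∀ I, 1 ≤ N I := fun I => D5b.norm_pos K I.1
  have hs : ∀ σ : ℝ, 1 < σ → Summable fun I => N I ^ (-σ) := fun σ hσ =>
    (hs0 σ hσ).comp_injective Subtype.val_injective
  have hpos : ∀ s : ℂ, |s.im| ≤ 1 → mellin (D6b.G φ) s ≠ 0 := by
    intro s hs' h
    have h3 : 0 < (mellin (D6b.G φ) s).re :=
      D6b.G_re_pos hg hδ0 hδ hgp (by rw [mul_one]; exact hs')
    rw [h] at h3
    simp at h3
  set γ : ℂ → ℂ := mellin (D6b.G φ) with hγ
  set M : ℂ → ℂ := fun s => mellin (D6b.Fr N φ c) (-s) with hM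
  have hγd : ∀ s, DifferentiableAt ℂ γ s := fun s => D6b.G_diff hg hδ s
  have hγc : Continuous γ := continuous_iff_continuousAt.2 fun s => (hγd s).continuousAt
  have hds : Continuous (dslope γ 1) := by
    rw [← continuousOn_univ, continuousOn_dslope univ_mem]
    exact ⟨hγc.continuousOn, hγd 1⟩
  have hMc : ∀ s : ℂ, 0 < s.re → ContinuousAt M s := by
    intro s hs'
    have hd1 := D6b.Fr_diff (A := 0) h1 (hs 2 (by norm_num)) hg hδ0 hδ hC (s := s)
      (by simpa using hs')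
    exact (DifferentiableAt.comp (g := mellin (D6b.Fr N φ c)) (f := fun s : ℂ => -s) s hd1
      (by fun_prop)).continuousAt
  have him : ∀ x : ℝ, γ ((1 + x : ℝ) : ℂ) ≠ 0 := fun x => hpos _ (by
    rw [Complex.ofReal_im, abs_zero]
    exact zero_le_one)
  have hγ1 : γ 1 ≠ 0 := hpos _ (by
    rw [Complex.one_im, abs_zero]
    exact zero_le_one)
  have hre : Continuous fun x : ℝ => ((1 + x : ℝ) : ℂ) := by fun_prop
  obtain ⟨C', hC'⟩ := (isCompact_Icc (a := (0 : ℝ)) (b := 1)).exists_bound_of_continuousOn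
    (f := fun x : ℝ => M ((1 + x : ℝ) : ℂ) / γ ((1 + x : ℝ) : ℂ) -
      c * dslope γ 1 ((1 + x : ℝ) : ℂ) / (γ ((1 + x : ℝ) : ℂ) * γ 1)) (by
    have h2 : ContinuousOn (fun x : ℝ => M ((1 + x : ℝ) : ℂ)) (Set.Icc 0 1) := by
      intro x hx
      have h3 := hMc ((1 + x : ℝ) : ℂ) (by
        rw [Complex.ofReal_re]
        linarith [hx.1])
      exact (ContinuousAt.comp (f := fun x : ℝ => ((1 + x : ℝ) : ℂ)) h3
        hre.continuousAt).continuousWithinAt
    have h3 : ContinuousOn (fun x : ℝ => γ ((1 + x : ℝ) : ℂ)) (Set.Icc 0 1) :=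
      (hγc.comp hre).continuousOn
    have h4 : ContinuousOn (fun x : ℝ => dslope γ 1 ((1 + x : ℝ) : ℂ)) (Set.Icc 0 1) :=
      (hds.comp hre).continuousOn
    exact (h2.div h3 fun x _ => him x).sub ((continuousOn_const.mul h4).div
      (h3.mul continuousOn_const) fun x _ => mul_ne_zero (him x) hγ1))
  refine ⟨((c : ℂ) / γ 1).re, C', fun x hx0 hx1 => ?_⟩
  have hk := D6b.key (A := 0) h1 hs hg hg0 hδ0 hδ hC (s := ((1 + x : ℝ) : ℂ))
    (by rw [Complex.ofReal_re]; linarith)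
  have hZ : ((ZC K Cl (1 + x) : ℝ) : ℂ) = ∑' i, (N i : ℂ) ^ (-((1 + x : ℝ) : ℂ)) := by
    unfold ZC
    rw [Complex.ofReal_tsum]
    refine tsum_congr fun I => ?_
    rw [Complex.ofReal_cpow (by positivity)]
    simp only [hN, Complex.ofReal_neg]
  rw [← hZ] at hk
  have hx : (x : ℂ) ≠ 0 := by exact_mod_cast hx0.ne'
  have hsub : ((1 + x : ℝ) : ℂ) - 1 = x := by
    push_cast
    ring
  have hne1 : ((1 + x : ℝ) : ℂ) ≠ 1 := by
    intro h
    rw [h, sub_self] at hsub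
    exact hx hsub.symm
  have hslope : dslope γ 1 ((1 + x : ℝ) : ℂ) = (γ ((1 + x : ℝ) : ℂ) - γ 1) / x := by
    rw [dslope_of_ne _ hne1, slope_def_field, hsub]
  have hF : ((ZC K Cl (1 + x) : ℝ) : ℂ) =
      (M ((1 + x : ℝ) : ℂ) / γ ((1 + x : ℝ) : ℂ) -
        c * dslope γ 1 ((1 + x : ℝ) : ℂ) / (γ ((1 + x : ℝ) : ℂ) * γ 1)) + (c / γ 1) / x := by
    rw [hsub] at hk
    have h5 : ((ZC K Cl (1 + x) : ℝ) : ℂ) =
        (M ((1 + x : ℝ) : ℂ) + c / x) / γ ((1 + x : ℝ) : ℂ) := by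
      rw [eq_div_iff (him x)]
      exact hk
    rw [h5, hslope]
    have := him x
    field_simp
    ring
  have h6 := congrArg Complex.re hF
  rw [Complex.ofReal_re, Complex.add_re, Complex.div_ofReal_re] at h6
  rw [h6, add_sub_cancel_right]
  exact (Complex.abs_re_le_norm _).trans (hC' x ⟨hx0.le, hx1⟩)

end Pool.Agent.FW
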