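import Pool.Agent.Lib.FW.SpecR2
import Pool.Agent.Lib.MP_7ed9c3_nt.Tw.D6a

/-!
# FW, stage 2, part R2, module ZB

The residue of the partial zeta functions does not depend on the class.
-/

open scoped Pointwise nonZeroDivisors

noncomputable section

namespace Pool.Agent.FW

open Pool.Agent.MuZ NumberField IsDedekindDomain Filter Topology

variable {K : Type} [Field K] [NumberField K]

/-- The norm on the ideals of a class. -/
private def zbn (Cl : ClassGroup (𝓞 K)) (I : {I : (Ideal (𝓞 K))⁰ // ClassGroup.mk0 I = Cl}) :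
    ℕ :=
  Ideal.absNorm (I.1 : Ideal (𝓞 K))

private theorem zbn_pos (Cl : ClassGroup (𝓞 K))
    (I : {I : (Ideal (𝓞 K))⁰ // ClassGroup.mk0 I = Cl}) : 0 < zbn Cl I :=
  Ideal.absNorm_pos_of_nonZeroDivisors I.1

private theorem zbn_fin (Cl : ClassGroup (𝓞 K)) (n : ℕ) : Finite {I // zbn Cl I = n} := by
  have := MP7ed9c3.Tw.D6a.finite_fibre (K := K) n
  refine Finite.of_injective (fun I : {I // zbn Cl I = n} =>
    (⟨I.1.1, I.2⟩ : {I : (Ideal (𝓞 K))⁰ // MP7ed9c3.Tw.D6a.nm I = n})) ?_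
  intro I J hIJ
  apply Subtype.ext
  apply Subtype.ext
  exact Subtype.mk.inj hIJ

private theorem zb_count (Cl : ClassGroup (𝓞 K)) (n : ℕ) :
    Nat.card {I : (Ideal (𝓞 K))⁰ // (Ideal.absNorm (I : Ideal (𝓞 K)) : ℝ) ≤ ((n : ℕ) : ℝ) ∧
      ClassGroup.mk0 I = Cl} = ∑ k ∈ Finset.Icc 1 n, Nat.card {I // zbn Cl I = k} := by
  rw [← Finset.card_preimage_eq_sum_card_image_eq (f := zbn Cl) (s := Finset.Icc 1 n)
    (fun k _ => Set.finite_coe_iff.1 (zbn_fin Cl k))]
  refine Nat.card_congr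
    { toFun := fun I => ⟨⟨I.1, I.2.2⟩, ?_⟩
      invFun := fun I => ⟨I.1.1, ?_, I.1.2⟩
      left_inv := fun I => rfl
      right_inv := fun I => rfl }
  · rw [Set.mem_preimage, Finset.coe_Icc, Set.mem_Icc]
    exact ⟨zbn_pos Cl _, by exact_mod_cast I.2.1⟩
  · have h : zbn Cl I.1 ∈ Finset.Icc 1 n := I.2
    rw [Finset.mem_Icc] at h
    exact_mod_cast h.2

private theorem zb_tsum (Cl : ClassGroup (𝓞 K)) {s : ℝ} (hs : 1 < s) :
    LSeries (fun n => (((Nat.card {I // zbn Cl I = n} : ℕ) : ℝ) : ℂ)) s = (ZC K Cl s : ℂ) := by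
  have hsum : Summable fun I : {I : (Ideal (𝓞 K))⁰ // ClassGroup.mk0 I = Cl} =>
      (zbn Cl I : ℝ) ^ (-s) :=
    (MP7ed9c3.Tw.D6a.summable_nm (K := K) hs).comp_injective Subtype.val_injective
  have h0 : Summable ((fun I : {I : (Ideal (𝓞 K))⁰ // ClassGroup.mk0 I = Cl} =>
      (zbn Cl I : ℝ) ^ (-s)) ∘ (Equiv.sigmaFiberEquiv (zbn Cl))) :=
    (Equiv.sigmaFiberEquiv (zbn Cl)).summable_iff.2 hsum
  have hZ : ZC K Cl s = ∑' n : ℕ, ((Nat.card {I // zbn Cl I = n} : ℕ) : ℝ) * (n : ℝ) ^ (-s) := by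
    have e : ZC K Cl s = ∑' I : {I : (Ideal (𝓞 K))⁰ // ClassGroup.mk0 I = Cl},
      (zbn Cl I : ℝ) ^ (-s) := rfl
    rw [e, ← (Equiv.sigmaFiberEquiv (zbn Cl)).tsum_eq]
    have h1 := h0.tsum_sigma' (fun n => by
      have := zbn_fin Cl n
      exact Summable.of_finite)
    simp only [Function.comp_def] at h1
    rw [h1]
    refine tsum_congr fun n => ?_
    have h2 : ∀ y : {I // zbn Cl I = n},
        (zbn Cl ((Equiv.sigmaFiberEquiv (zbn Cl)) ⟨n, y⟩) : ℝ) ^ (-s) = (n : ℝ) ^ (-s) := by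
      intro y
      have : (Equiv.sigmaFiberEquiv (zbn Cl)) ⟨n, y⟩ = y.1 := rfl
      rw [this, y.2]
    rw [tsum_congr h2, tsum_const, nsmul_eq_mul]
  rw [hZ, Complex.ofReal_tsum]
  unfold LSeries
  refine tsum_congr fun n => ?_
  rw [LSeries.term_def]
  by_cases hn : n = 0
  · subst hn
    have : IsEmpty {I // zbn Cl I = 0} := ⟨fun I => (zbn_pos Cl I.1).ne' I.2⟩
    rw [if_pos rfl, Nat.card_of_isEmpty]
    simp
  · rw [if_neg hn, Complex.ofReal_mul, Complex.ofReal_cpow (Nat.cast_nonneg n)]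
    rw [Complex.ofReal_neg, Complex.cpow_neg, div_eq_mul_inv, Complex.ofReal_natCast,
      Complex.ofReal_natCast]

/-- **ZB.** The residue does not depend on the class. -/
theorem tZB : S_ZB := by
  intro K _ _
  refine ⟨(2 ^ InfinitePlace.nrRealPlaces K * (2 * Real.pi) ^ InfinitePlace.nrComplexPlaces K *
    Units.regulator K) / (Units.torsionOrder K * Real.sqrt |(discr K : ℝ)|), fun Cl => ?_⟩
  have h1 : Tendsto (fun n : ℕ => (∑ k ∈ Finset.Icc 1 n,
      ((Nat.card {I // zbn Cl I = k} : ℕ) : ℝ)) / (n : ℝ)) atTop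
      (𝓝 ((2 ^ InfinitePlace.nrRealPlaces K * (2 * Real.pi) ^ InfinitePlace.nrComplexPlaces K *
        Units.regulator K) / (Units.torsionOrder K * Real.sqrt |(discr K : ℝ)|))) := by
    refine ((NumberField.Ideal.tendsto_norm_le_and_mk_eq_div_atTop K Cl).comp
      tendsto_natCast_atTop_atTop).congr fun n => ?_
    rw [Function.comp_apply, zb_count Cl n, Nat.cast_sum]
  have h2 := LSeries_tendsto_sub_mul_nhds_one_of_tendsto_sum_div_and_nonneg
    (fun n => ((Nat.card {I // zbn Cl I = n} : ℕ) : ℝ)) h1 (fun n => Nat.cast_nonneg _)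
  have h3 : Tendsto (fun x : ℝ => 1 + x) (𝓝[>] 0) (𝓝[>] 1) := by
    refine tendsto_nhdsWithin_iff.2 ⟨?_, ?_⟩
    · have : Tendsto (fun x : ℝ => 1 + x) (𝓝 0) (𝓝 (1 + 0)) :=
        (continuous_const.add continuous_id).tendsto 0
      rw [add_zero] at this
      exact this.mono_left nhdsWithin_le_nhds
    · filter_upwards [self_mem_nhdsWithin] with x hx
      rw [Set.mem_Ioi] at hx ⊢
      linarith
  have h4 := (Complex.continuous_re.tendsto _).comp (h2.comp h3)
  rw [Complex.ofReal_re] at h4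
  refine h4.congr' ?_
  filter_upwards [self_mem_nhdsWithin] with x hx
  rw [Set.mem_Ioi] at hx
  have h5 := zb_tsum Cl (s := 1 + x) (by linarith)
  simp only [Function.comp_apply]
  rw [h5, ← Complex.ofReal_one, ← Complex.ofReal_sub, ← Complex.ofReal_mul, Complex.ofReal_re]
  ring

end Pool.Agent.FW
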