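import Pool.Agent.Lib.FW.SpecR2

/-!
# FW, part R2, module Cut: the common zeros of two independent class characters
-/

open scoped Pointwise nonZeroDivisors

noncomputable section

namespace Pool.Agent.FW

open Pool.Agent.MuZ NumberField IsDedekindDomain Filter Topology

theorem tCut (hHom : S_Hom) (hPB : S_PB) : S_Cut := by
  classical
  intro p hp K _ _ a b ha hb hind
  obtain ⟨φ, hφ⟩ := hHom p K a ha
  obtain ⟨φ', hφ'⟩ := hHom p K b hb
  have hp0 : NeZero p := ⟨hp.out.ne_zero⟩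
  let ψ : AddChar (ZMod p) ℂ := ZMod.stdAddChar
  have hψn : ∀ z : ZMod p, ‖ψ z‖ = 1 := fun z => AddChar.norm_apply ψ z
  let X : ZMod p → ZMod p → (ClassGroup (𝓞 K) →* ℂˣ) := fun c d => MonoidHom.toHomUnits
    { toFun := fun Cl => ψ (c * (φ Cl).toAdd + d * (φ' Cl).toAdd)
      map_one' := by
        rw [φ.map_one, φ'.map_one, toAdd_one, mul_zero, mul_zero, add_zero, AddChar.map_zero_eq_one]
      map_mul' := fun x y => by
        have e1 : (φ (x * y)).toAdd = (φ x).toAdd + (φ y).toAdd := by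
          rw [φ.map_mul]
          rfl
        have e2 : (φ' (x * y)).toAdd = (φ' x).toAdd + (φ' y).toAdd := by
          rw [φ'.map_mul]
          rfl
        rw [e1, e2, ← AddChar.map_add_eq_mul]
        congr 1
        ring }
  have hX : ∀ (c d : ZMod p) (v : HeightOneSpectrum (𝓞 K)),
      ((X c d (ClassGroup.mk0 (MP7ed9c3.Tw.D6a.pr v)) : ℂˣ) : ℂ) = ψ (c * a v + d * b v) := by
    intro c d v
    show ψ (c * (φ (ClassGroup.mk0 (MP7ed9c3.Tw.D6a.pr v))).toAdd +
      d * (φ' (ClassGroup.mk0 (MP7ed9c3.Tw.D6a.pr v))).toAdd) = _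
    rw [hφ, hφ', toAdd_ofAdd, toAdd_ofAdd]
  have hX1 : ∀ c d : ZMod p, (c ≠ 0 ∨ d ≠ 0) → X c d ≠ 1 := by
    intro c d hcd h
    obtain ⟨v, hv⟩ := hind c d hcd
    have h1 := hX c d v
    rw [h, MonoidHom.one_apply, Units.val_one, ← ψ.map_zero_eq_one] at h1
    exact hv (ZMod.injective_stdAddChar h1).symm
  have hB : ∀ q : ZMod p × ZMod p, ∃ C : ℝ, ∀ x : ℝ, 0 < x → x ≤ 1 →
      ∑' v : HeightOneSpectrum (𝓞 K), (ψ (q.1 * a v + q.2 * b v)).re *
        (ZD.nm v : ℝ) ^ (-(1 + x)) ≤ (if q = 0 then Real.log (1 / x) else 0) + C := by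
    intro q
    by_cases hq : q = 0
    · obtain ⟨C, hC⟩ := ZD.Dn_univ (K := K)
      refine ⟨C, fun x h0 h1 => ?_⟩
      rw [if_pos hq, hq]
      have h2 := (abs_le.1 (hC x h0 h1)).2
      have h3 : ∑' v : HeightOneSpectrum (𝓞 K),
          (ψ ((0 : ZMod p × ZMod p).1 * a v + (0 : ZMod p × ZMod p).2 * b v)).re *
          (ZD.nm v : ℝ) ^ (-(1 + x)) = ZD.pS K Set.univ x := by
        unfold ZD.pS
        refine tsum_congr fun v => ?_
        rw [Set.indicator_univ, Prod.fst_zero, Prod.snd_zero, zero_mul, zero_mul, add_zero,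
          AddChar.map_zero_eq_one, Complex.one_re, one_mul]
      rw [h3]
      linarith
    · have hcd : q.1 ≠ 0 ∨ q.2 ≠ 0 := by
        by_contra h
        push Not at h
        exact hq (Prod.ext h.1 h.2)
      obtain ⟨C, hC⟩ := hPB K (X q.1 q.2) (hX1 _ _ hcd)
      refine ⟨C, fun x h0 h1 => ?_⟩
      rw [if_neg hq, zero_add]
      refine le_of_eq_of_le (tsum_congr fun v => ?_) (hC x h0 h1)
      rw [hX]
  choose C hC using hB
  refine ⟨∑ q, C q, fun x h0 h1 => ?_⟩
  have hs : ∀ q ∈ (Finset.univ : Finset (ZMod p × ZMod p)),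
      Summable fun v : HeightOneSpectrum (𝓞 K) => (ψ (q.1 * a v + q.2 * b v)).re *
        (ZD.nm v : ℝ) ^ (-(1 + x)) := by
    intro q _
    refine Summable.of_norm_bounded (ZD.summable_all (K := K) h0) fun v => ?_
    rw [norm_mul, Real.norm_of_nonneg (ZD.term_nonneg v x)]
    refine mul_le_of_le_one_left (ZD.term_nonneg v x) ?_
    rw [Real.norm_eq_abs]
    exact (Complex.abs_re_le_norm _).trans (hψn _).le
  have hsum : ∀ v : HeightOneSpectrum (𝓞 K),
      ∑ q : ZMod p × ZMod p, (ψ (q.1 * a v + q.2 * b v)).re =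
        if a v = 0 ∧ b v = 0 then (p : ℝ) ^ 2 else 0 := by
    intro v
    have hprim : ψ.IsPrimitive := ZMod.isPrimitive_stdAddChar p
    have e1 : ∑ q : ZMod p × ZMod p, ψ (q.1 * a v + q.2 * b v) =
        (∑ c : ZMod p, ψ (c * a v)) * ∑ d : ZMod p, ψ (d * b v) := by
      rw [Fintype.sum_prod_type, Finset.sum_mul_sum]
      refine Finset.sum_congr rfl fun c _ => Finset.sum_congr rfl fun d _ => ?_
      exact AddChar.map_add_eq_mul _ _ _
    rw [AddChar.sum_mulShift _ hprim, AddChar.sum_mulShift _ hprim] at e1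
    rw [← Complex.re_sum, e1]
    by_cases h2 : a v = 0
    · by_cases h3 : b v = 0
      · rw [if_pos h2, if_pos h3, if_pos ⟨h2, h3⟩, ZMod.card, ← Nat.cast_mul,
          Complex.natCast_re, Nat.cast_mul, sq]
      · rw [if_neg h3, Nat.cast_zero, mul_zero, Complex.zero_re, if_neg (fun h => h3 h.2)]
    · rw [if_neg h2, Nat.cast_zero, zero_mul, Complex.zero_re, if_neg (fun h => h2 h.1)]
  have key : (p : ℝ) ^ 2 * ZD.pS K {v | a v = 0 ∧ b v = 0} x =
      ∑ q : ZMod p × ZMod p, ∑' v : HeightOneSpectrum (𝓞 K),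
        (ψ (q.1 * a v + q.2 * b v)).re * (ZD.nm v : ℝ) ^ (-(1 + x)) := by
    rw [← Summable.tsum_finsetSum hs]
    unfold ZD.pS
    rw [← tsum_mul_left]
    refine tsum_congr fun v => ?_
    rw [← Finset.sum_mul, hsum v]
    by_cases h : a v = 0 ∧ b v = 0
    · rw [if_pos h, Set.indicator_of_mem (show v ∈ {v | a v = 0 ∧ b v = 0} from h)]
    · rw [if_neg h, Set.indicator_of_notMem (show v ∉ {v | a v = 0 ∧ b v = 0} from h),
        mul_zero, zero_mul]
  rw [key]
  refine (Finset.sum_le_sum fun q _ => hC q x h0 h1).trans (le_of_eq ?_)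
  rw [Finset.sum_add_distrib, Finset.sum_ite_eq']
  simp

end Pool.Agent.FW
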