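import Pool.Agent.Lib.FW.SpecR2
import Pool.Agent.Lib.FW.R1.RFld

/-!
# FW, part R2, module Fld: the field of a character and its split primes
-/

open scoped Pointwise nonZeroDivisors

noncomputable section

namespace Pool.Agent.FW

open Pool.Agent.MuZ NumberField IsDedekindDomain Filter Topology

theorem tFld (hLie : S_Lie) (hFrE : S_FrE) : S_Fld := by
  intro p hp K hK g hg
  obtain ⟨M, hKM, hMfin, hMst, hker⟩ := tRFld p K g hg
  have hNFM : NumberField M := { to_charZero := inferInstance, to_finiteDimensional := hMfin }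
  obtain ⟨hg1, hg2, -, hg4⟩ := hg
  have : Normal K Om := Normal.tower_top_of_normal ℚ K Om
  have : IsGalois K Om := ⟨⟩
  let L : IntermediateField K Om := IntermediateField.extendScalars hKM
  have hL : ∀ x : Om, x ∈ L ↔ x ∈ M := fun x => IntermediateField.mem_extendScalars hKM
  have hres : ∀ σ : Gal(Om/K), (σ.restrictScalars ℚ : Gal(Om/ℚ)) ∈ K.fixingSubgroup := by
    intro σ
    rw [IntermediateField.mem_fixingSubgroup_iff]
    intro x hx
    exact σ.commutes ⟨x, hx⟩
  have hNorm : Normal K L := by
    rw [IntermediateField.normal_iff_forall_map_le']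
    rintro σ x ⟨y, hy, rfl⟩
    exact (hL _).2 (hMst _ (hres σ) _ ((hL y).1 hy))
  have hGal : IsGalois K L := ⟨⟩
  have hdeg : Module.finrank K L ≤ p := by
    rw [IntermediateField.finrank_eq_fixingSubgroup_index Om L]
    let φ : Gal(Om/K) →* Multiplicative (ZMod p) :=
      { toFun := fun σ => Multiplicative.ofAdd (g (σ.restrictScalars ℚ))
        map_one' := by
          have h1 := hg2 1 K.fixingSubgroup.one_mem 1 K.fixingSubgroup.one_mem
          have h2 : g 1 = 0 := by
            rw [mul_one] at h1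
            exact left_eq_add.1 h1
          exact congrArg Multiplicative.ofAdd h2
        map_mul' := fun σ τ => congrArg Multiplicative.ofAdd (hg2 _ (hres σ) _ (hres τ)) }
    have hφ : φ.ker = L.fixingSubgroup := by
      ext σ
      rw [MonoidHom.mem_ker, IntermediateField.mem_fixingSubgroup_iff]
      have h1 : (φ σ = 1) ↔ g (σ.restrictScalars ℚ) = 0 := Iff.rfl
      rw [h1]
      have h2 := hker (σ.restrictScalars ℚ)
      rw [IntermediateField.mem_fixingSubgroup_iff] at h2
      constructor
      · intro h x hx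
        exact h2.2 ⟨hres σ, h⟩ x ((hL x).1 hx)
      · intro h
        exact (h2.1 fun x hx => h x ((hL x).2 hx)).2
    rw [← hφ, Subgroup.index_ker]
    have hcard : Nat.card (Multiplicative (ZMod p)) = p := by
      rw [Nat.card_congr Multiplicative.toAdd, Nat.card_zmod]
    have := Subgroup.card_le_card_group φ.range
    rwa [hcard] at this
  let algKM : Algebra K M := (IntermediateField.inclusion hKM).toRingHom.toAlgebra
  let e : L ≃ₐ[K] M :=
    { toFun := fun x => ⟨(x : Om), (hL _).1 x.2⟩
      invFun := fun x => ⟨(x : Om), (hL _).2 x.2⟩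
      left_inv := fun _ => rfl
      right_inv := fun _ => rfl
      map_mul' := fun _ _ => rfl
      map_add' := fun _ _ => rfl
      commutes' := fun _ => rfl }
  refine ⟨M, inferInstance, hNFM, algKM, IsGalois.of_algEquiv e, ?_, ?_⟩
  · rw [← e.toLinearEquiv.finrank_eq]
    exact hdeg
  · intro v hv
    obtain ⟨w, hw⟩ := ZD.abv_nonempty (L := M) v
    have hnm := ZD.nm_eq_of_mem_Spl hv hw
    obtain ⟨P, hP⟩ := hLie.1 M w
    obtain ⟨τ, hτ1, hτ2⟩ := hFrE M P hP.1 hP.2.1
    have hc : v.asIdeal = P.comap (iO K) := by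
      rw [← ZD.mem_abv.1 hw, hP.2.2, Ideal.comap_comap]
      rfl
    have hcard : Nat.card (𝓞 M ⧸ P.comap (iO M)) = Nat.card (𝓞 K ⧸ P.comap (iO K)) := by
      rw [← hP.2.2, ← hc]
      have h1 : Ideal.absNorm w.asIdeal = Ideal.absNorm v.asIdeal := hnm
      rwa [Ideal.absNorm_apply, Ideal.absNorm_apply, Submodule.cardQuot_apply,
        Submodule.cardQuot_apply] at h1
    have h3 := (hker τ).1 hτ1
    refine ⟨P, τ, ⟨hP.1, hP.2.1, hc⟩, ⟨h3.1, fun x => ?_⟩, h3.2⟩
    rw [← hcard]
    exact hτ2 x

end Pool.Agent.FW
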